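import Mathlib
import Pool.Agent.H83.Tower2

set_option autoImplicit false

namespace Pool.Agent.Results.MP_522602_lc.TopNoDiamond

open Set Filter Cardinal Pool.Agent.H83.Tower2

/-- Tukey-top ultrafilters -/
def TukeyTop (U : Ultrafilter ℕ) : Prop :=
  ∃ A : (continuum.{0}).ord.ToType → Set ℕ, (∀ i, A i ∈ U) ∧
    ∀ I : Set (continuum.{0}).ord.ToType, I.Countable → I.Infinite → (⋂ i ∈ I, A i) ∉ U

/-- the guessing principle diamond minus -/
def DiamondMinus (U : Ultrafilter ℕ) : Prop :=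
  ∃ (f π : ℕ → ℕ) (A : ℕ → Set (Set ℕ)) (T : Set (Set ℕ)), #T = continuum ∧
    (∀ n, A n ⊆ 𝒫 (Iio (f n)) ∧ (A n).encard ≤ π n) ∧
    (∀ X ∈ T, {n | X ∩ Iio (f n) ∈ A n} ∈ U) ∧ ∀ g : ℕ → ℕ, {n | g (π n) < f n} ∈ U

theorem fin (W : Filter ℕ) [W.NeBot] (A : ℕ → Set (Set ℕ)) (v : ℕ)
    (h : ∀ᶠ k in W, (A k).encard ≤ v) :
    {X : Set ℕ | ∀ m, ∀ᶠ k in W, ∃ s ∈ A k, s ∩ Iio m = X ∩ Iio m}.Finite := by
  by_contra hc
  obtain ⟨t, ht, hcard⟩ := Set.Infinite.exists_subset_card_eq hc (v + 1)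
  have h1 : ∀ᶠ m in atTop, ∀ X ∈ t, ∀ X' ∈ t, X ∩ Iio m = X' ∩ Iio m → X = X' := by
    refine (eventually_all_finset t).2 fun X _ => (eventually_all_finset t).2 fun X' _ => ?_
    by_cases hX : X = X'
    · exact .of_forall fun _ _ => hX
    obtain ⟨x, hx⟩ := not_forall.1 (mt Set.ext hX)
    filter_upwards [eventually_gt_atTop x] with m hm h'
    have := Set.ext_iff.1 h' x
    simp only [mem_inter_iff, mem_Iio, hm, and_true] at this
    exact absurd this hx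
  obtain ⟨m, hm⟩ := h1.exists
  obtain ⟨k, hk1, hk2⟩ := (h.and ((eventually_all_finset t).2 fun X hX => ht hX m)).exists
  choose! s hs1 hs2 using hk2
  have h2 : (t : Set (Set ℕ)).encard ≤ (A k).encard :=
    encard_le_encard_of_injOn (f := s) hs1 fun X hX X' hX' h' =>
      hm X hX X' hX' (by rw [← hs2 X hX, h', hs2 X' hX'])
  rw [encard_coe_eq_coe_finsetCard, hcard] at h2
  exact absurd (h2.trans hk1) (by norm_cast; omega)

theorem result (CH : continuum.{0} = ℵ_ 1) :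
    ∃ U : Ultrafilter ℕ, TukeyTop U ∧ ¬ DiamondMinus U := by
  classical
  let J := (continuum.{0}).ord.ToType
  have hJ : ∀ α : J, Countable (Iio α) := fun α => by
    rw [← Cardinal.mk_le_aleph0_iff, ← Order.lt_succ_iff, succ_aleph0, ← CH]
    exact mk_Iio_toType_ord_lt α
  obtain ⟨Z⟩ : Nonempty (J ≃ (ℕ → Set ℕ)) := by
    rw [← Cardinal.eq, mk_ord_toType]; simp
  obtain ⟨X, d, hI, hZ⟩ := tower hJ Z
  have task : ∀ {ι : Type} [Countable ι] [Nonempty ι] (S : ι → Set ℕ), ∃ α,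
      (∀ m n, ((X α ∩ P n) \ S m).Finite ∨ (X α ∩ P n ∩ S m).Finite) ∧
      ∀ m, (∀ᶠ n in atTop, ((X α ∩ P n) \ S m).Finite) ∨
        ∀ᶠ n in atTop, (X α ∩ P n ∩ S m).Finite := by
    intro ι _ _ S
    obtain ⟨e, he⟩ := exists_surjective_nat ι
    have := hZ (Z.symm (S ∘ e))
    rw [Equiv.apply_symm_apply] at this
    exact ⟨_, fun m => by obtain ⟨m, rfl⟩ := he m; exact this.1 m,
      fun m => by obtain ⟨m, rfl⟩ := he m; exact this.2 m⟩
  have hmono : ∀ {α β s}, β ≤ α → (∀ᶠ n in atTop, ((X β ∩ P n) \ s).Finite) →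
      ∀ᶠ n in atTop, ((X α ∩ P n) \ s).Finite := by
    intro α β s hle h
    rcases hle.eq_or_lt with rfl | hlt
    · exact h
    filter_upwards [h, (hI α).2.2.1 ⟨β, hlt⟩] with n h1 h2
    refine (h1.union h2).subset fun x hx => ?_
    by_cases hx' : x ∈ X β
    · exact Or.inl ⟨⟨hx', hx.1.2⟩, hx.2⟩
    · exact Or.inr ⟨hx.1, hx'⟩
  let F : Filter ℕ :=
    { sets := {s | ∃ α, ∀ᶠ n in atTop, ((X α ∩ P n) \ s).Finite}
      univ_sets := ⟨Z.symm default, by simp⟩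
      sets_of_superset := fun ⟨α, h⟩ hst =>
        ⟨α, h.mono fun n hn => hn.subset (diff_subset_diff_right hst)⟩
      inter_sets := fun ⟨α, h⟩ ⟨β, h'⟩ => ⟨max α β, by
        filter_upwards [hmono (le_max_left α β) h, hmono (le_max_right α β) h'] with n h1 h2
        rw [diff_inter]
        exact h1.union h2⟩ }
  have hF : ∀ s ∈ F, ∃ n, (s ∩ P n).Infinite := by
    rintro s ⟨α, h⟩
    obtain ⟨m, hm⟩ := eventually_atTop.1 h
    obtain ⟨n, hn, hn'⟩ := (hI α).1 m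
    exact ⟨n, (hn'.diff (hm n hn)).mono fun x hx => ⟨not_not.1 fun h => hx.2 ⟨hx.1, h⟩, hx.1.2⟩⟩
  have : F.NeBot := ⟨fun h => by simpa using hF ∅ (h ▸ mem_bot)⟩
  let U := Ultrafilter.of F
  have hU1 : ∀ {α s}, (∀ᶠ n in atTop, ((X α ∩ P n) \ s).Finite) → s ∈ U := fun h =>
    Ultrafilter.of_le F ⟨_, h⟩
  have hU2 : ∀ s ∈ U, ∃ n, (s ∩ P n).Infinite := by
    intro s hs
    obtain ⟨α, -, h⟩ := task fun _ : Unit => s
    rcases h () with h | h
    · exact hF s ⟨α, h⟩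
    · exact absurd hs (Ultrafilter.compl_mem_iff_notMem.1 (hU1 (α := α) (by simpa using h)))
  have hXU : ∀ α, X α ∈ U := fun α => hU1 (α := α) (.of_forall fun n => by
    rw [diff_eq_empty.2 inter_subset_left]; exact finite_empty)
  refine ⟨U, ⟨X, hXU, fun I _ hI' hU => ?_⟩, ?_⟩
  · obtain ⟨n, hn⟩ := hU2 _ hU
    have h1 : StrictAntiOn (fun α => d α n) I := fun β hβ α hα hlt =>
      (hI α).2.2.2.1 ⟨β, hlt⟩ n (hn.mono fun x hx =>
        ⟨⟨mem_iInter₂.1 hx.1 α hα, hx.2⟩, mem_iInter₂.1 hx.1 β hβ⟩)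
    obtain ⟨β, hβ, hβ'⟩ := wellFounded_lt.has_min I hI'.nonempty
    refine hI' (Finite.of_finite_image ((finite_Iic (d β n)).subset ?_) h1.injOn)
    rintro _ ⟨α, hα, rfl⟩
    exact h1.antitoneOn hβ hα (not_lt.1 (hβ' α hα))
  rintro ⟨f, π, A, T, hT, hA, hG, hsky⟩
  have hTc : ¬ T.Countable := by
    rw [← le_aleph0_iff_set_countable, hT, not_le]; exact aleph0_lt_continuum
  have sky : ∀ B ∈ U, ¬ ∀ v, (f '' {k | k ∈ B ∧ π k = v}).Finite := by
    intro B hB h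
    choose g hg using fun v => (h v).bddAbove
    obtain ⟨k, h1, h2⟩ := U.nonempty_of_mem (inter_mem hB (hsky g))
    exact absurd (hg (π k) ⟨k, ⟨h1, rfl⟩, rfl⟩) (not_le.2 h2)
  have tr : ∀ (X' : Set ℕ) k m, X' ∩ Iio (f k) ∈ A k → m ≤ f k →
      ∃ s ∈ A k, s ∩ Iio m = X' ∩ Iio m := fun X' k m h hm =>
    ⟨_, h, by rw [inter_assoc, inter_eq_right.2 (Iio_subset_Iio hm)]⟩
  obtain ⟨α, h1, h2⟩ := task (ι := ℕ ⊕ ℕ ⊕ ℕ × Finset ℕ) (Sum.elim (fun v => {k | π k = v})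
    (Sum.elim (fun v => {k | f k = v}) fun p => {k | ∃ s ∈ A k, s ∩ Iio p.1 = p.2}))
  have small : ∀ (φ : ℕ → ℕ) n m, (∀ v, (X α ∩ P n ∩ {k | φ k = v}).Finite) →
      ((X α ∩ P n) \ {k | m ≤ φ k}).Finite := fun φ n m h =>
    ((finite_Iio m).biUnion fun v _ => h v).subset fun x hx =>
      mem_biUnion (x := φ x) (mem_Iio.2 (not_le.1 hx.2)) ⟨hx.1, rfl⟩
  have cond : ∀ (N : Set ℕ) (S : ℕ → Set ℕ), (∀ n ∈ N, ((X α ∩ P n) \ S n).Finite) →
      {k | k.unpair.1 ∈ N → k ∈ S k.unpair.1} ∈ U := fun N S h =>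
    hU1 (α := α) (.of_forall fun n => by
      by_cases hn : n ∈ N
      · refine (h n hn).subset fun x hx => ⟨hx.1, fun h' => hx.2 fun _ => ?_⟩
        rwa [show x.unpair.1 = n from hx.1.2]
      · refine finite_empty.subset fun x hx => hx.2 fun h' => absurd ?_ hn
        rwa [show x.unpair.1 = n from hx.1.2] at h')
  let N1 := {n | ∀ v, (X α ∩ P n ∩ {k | π k = v}).Finite}
  let N3 := {n | ∀ v, (X α ∩ P n ∩ {k | f k = v}).Finite}
  by_cases c1 : {k | k.unpair.1 ∈ N1} ∈ U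
  · refine sky _ (inter_mem (inter_mem (hXU α) c1) (cond N1 (fun n => {k | n ≤ π k})
      fun n hn => small π n n hn)) fun v => Finite.image _ ?_
    refine (((finite_Iic v).inter_of_left N1).biUnion fun n hn => hn.2 v).subset ?_
    rintro k ⟨⟨⟨h3, h4⟩, h5⟩, rfl⟩
    exact mem_biUnion (x := k.unpair.1) ⟨h5 h4, h4⟩ ⟨⟨h3, rfl⟩, rfl⟩
  have c1' := Ultrafilter.compl_mem_iff_notMem.2 c1
  have h3 : ∀ n, ∃ v, n ∈ N1ᶜ → ((X α ∩ P n) \ {k | π k = v}).Finite ∧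
      (X α ∩ P n ∩ {k | π k = v}).Infinite := fun n => by
    by_cases hn : n ∈ N1
    · exact ⟨0, fun h => absurd hn h⟩
    · obtain ⟨v, hv⟩ := not_forall.1 hn
      exact ⟨v, fun _ => ⟨(h1 (.inl v) n).resolve_right hv, hv⟩⟩
  choose h hh using h3
  by_cases c3 : {k | k.unpair.1 ∈ N3} ∈ U
  · refine hTc (((to_countable N1ᶜ).biUnion (t := fun n _ => {X' : Set ℕ | ∀ m, ∀ᶠ k in
      cofinite ⊓ 𝓟 (X α ∩ P n), ∃ s ∈ A k, s ∩ Iio m = X' ∩ Iio m}) fun n hn => ?_).mono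
        fun X' hX' => ?_)
    · have : (cofinite ⊓ 𝓟 (X α ∩ P n)).NeBot := cofinite_inf_principal_neBot_iff.2
        ((hh n hn).2.mono inter_subset_left)
      refine (fin _ A (h n) ?_).countable
      rw [eventually_inf_principal]
      refine (hh n hn).1.subset fun k hk => ?_
      simp only [mem_compl_iff, mem_setOf_eq, Classical.not_imp] at hk
      exact ⟨hk.1, fun h' => hk.2 (by rw [← show π k = h n from h']; exact (hA k).2)⟩
    · obtain ⟨n, hn⟩ := hU2 _ (inter_mem (inter_mem (hXU α) (hG X' hX')) (inter_mem c1' c3))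
      obtain ⟨k, ⟨-, hk1, hk3⟩, rfl⟩ := hn.nonempty
      refine mem_iUnion₂.2 ⟨_, hk1, fun m => ?_⟩
      obtain ⟨σ, h4⟩ : ∃ σ : Finset ℕ, (σ : Set ℕ) = X' ∩ Iio m :=
        ⟨_, ((finite_Iio m).inter_of_right X').coe_toFinset⟩
      rw [eventually_inf_principal, ← h4]
      refine ((h1 (.inr (.inr (m, σ))) k.unpair.1).resolve_right fun h5 => ?_).subset
        fun x hx => ?_
      · refine (hn.diff (small f _ m hk3)) (h5.subset fun x hx => ⟨⟨hx.1.1.1.1, hx.1.2⟩, ?_⟩)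
        simp only [Sum.elim_inr, h4]
        exact tr X' x m hx.1.1.1.2 (not_not.1 fun h6 => hx.2 ⟨⟨hx.1.1.1.1, hx.1.2⟩, h6⟩)
      · simp only [mem_compl_iff, mem_setOf_eq, Classical.not_imp] at hx
        exact hx
  have c3' := Ultrafilter.compl_mem_iff_notMem.2 c3
  have h4 : ∀ n, ∃ v, n ∈ N3ᶜ → ((X α ∩ P n) \ {k | f k = v}).Finite := fun n => by
    by_cases hn : n ∈ N3
    · exact ⟨0, fun h => absurd hn h⟩
    · obtain ⟨v, hv⟩ := not_forall.1 hn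
      exact ⟨v, fun _ => (h1 (.inr (.inl v)) n).resolve_right hv⟩
  choose f' hf' using h4
  by_cases c4 : ∃ v, {k | π k = v} ∈ U
  · obtain ⟨v, hv⟩ := c4
    refine hTc (((fin U A v ?_).subset fun X' hX' m => ?_).countable)
    · filter_upwards [hv] with k hk
      rw [← hk]; exact (hA k).2
    · filter_upwards [hG X' hX', hsky fun _ => m] with k h5 h6
      exact tr X' k m h5 h6.le
  refine sky _ (inter_mem (inter_mem c1' c3') (inter_mem
    (cond N1ᶜ (fun n => {k | π k = h n}) fun n hn => (hh n hn).1)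
    (cond N3ᶜ (fun n => {k | f k = f' n}) hf'))) fun v => ?_
  have h5 := (h2 (.inl v)).resolve_left fun h' => c4 ⟨v, hU1 h'⟩
  rw [← Nat.cofinite_eq_atTop] at h5
  refine (Finite.image f' h5).subset ?_
  rintro _ ⟨k, ⟨⟨⟨h6, h7⟩, h8, h9⟩, rfl⟩, rfl⟩
  refine ⟨k.unpair.1, ?_, (h9 h7).symm⟩
  have := (hh _ h6).2
  rwa [← show π k = h k.unpair.1 from h8 h6] at this

end Pool.Agent.Results.MP_522602_lc.TopNoDiamond
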